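import Pool.Agent.U324.DE.Approx

set_option autoImplicit false

open MeasureTheory Filter Topology Set

namespace Pool.Agent.U324.DE

open Pool.Agent.U469.DE

noncomputable section

/-- a `C¹` step from `0` to `1` on `[0, 1]` -/
def st (x : ℝ) : ℝ := 8 / 3 * (pp x - pp (x - 1 / 4) - pp (x - 3 / 4) + pp (x - 1))

def st' (x : ℝ) : ℝ :=
  16 / 3 * (max 0 x - max 0 (x - 1 / 4) - max 0 (x - 3 / 4) + max 0 (x - 1))

theorem st_der (x : ℝ) : HasDerivAt st (st' x) x := by
  have h : ∀ c : ℝ, HasDerivAt (fun x => pp (x - c)) (2 * max 0 (x - c)) x := fun c => by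
    have h2 := (pp_der (x - c)).comp x ((hasDerivAt_id x).sub_const c)
    rw [mul_one] at h2
    exact h2
  have h3 := ((((pp_der x).sub (h (1 / 4))).sub (h (3 / 4))).add (h 1)).const_mul (8 / 3)
  refine h3.congr_deriv ?_
  rw [st']
  ring

theorem st_neg {x : ℝ} (hx : x ≤ 0) : st x = 0 := by
  rw [st, pp, pp, pp, pp, max_eq_left hx, max_eq_left (by linarith), max_eq_left (by linarith),
    max_eq_left (by linarith)]
  ring

theorem st_one {x : ℝ} (hx : 1 ≤ x) : st x = 1 := by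
  rw [st, pp, pp, pp, pp, max_eq_right (by linarith), max_eq_right (by linarith),
    max_eq_right (by linarith), max_eq_right (by linarith)]
  ring

theorem st'_neg {x : ℝ} (hx : x ≤ 0) : st' x = 0 := by
  rw [st', max_eq_left hx, max_eq_left (by linarith), max_eq_left (by linarith),
    max_eq_left (by linarith)]
  ring

theorem st'_one {x : ℝ} (hx : 1 ≤ x) : st' x = 0 := by
  rw [st', max_eq_right (by linarith), max_eq_right (by linarith), max_eq_right (by linarith),
    max_eq_right (by linarith)]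
  ring

theorem st'_nonneg (x : ℝ) : 0 ≤ st' x := by
  rw [st']
  rcases le_total 0 x with h1 | h1 <;> rcases le_total 0 (x - 1 / 4) with h2 | h2 <;>
    rcases le_total 0 (x - 3 / 4) with h3 | h3 <;> rcases le_total 0 (x - 1) with h4 | h4 <;>
    simp only [max_eq_left, max_eq_right, h1, h2, h3, h4] <;> linarith

theorem st'_le (x : ℝ) : st' x ≤ 4 / 3 := by
  rw [st']
  rcases le_total 0 x with h1 | h1 <;> rcases le_total 0 (x - 1 / 4) with h2 | h2 <;>
    rcases le_total 0 (x - 3 / 4) with h3 | h3 <;> rcases le_total 0 (x - 1) with h4 | h4 <;>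
    simp only [max_eq_left, max_eq_right, h1, h2, h3, h4] <;> linarith

theorem st_half : st (1 / 2) = 1 / 2 := by
  rw [st, pp, pp, pp, pp, max_eq_right (by norm_num), max_eq_right (by norm_num),
    max_eq_left (by norm_num), max_eq_left (by norm_num)]
  norm_num

theorem st_mono : Monotone st :=
  monotone_of_hasDerivAt_nonneg st_der fun x => st'_nonneg x

theorem st'_cont : Continuous st' := by
  unfold st'
  fun_prop

/-- the odd step -/
def Fo (c L x : ℝ) : ℝ := st ((x - c) / L) - st ((-x - c) / L)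

def Fo' (c L x : ℝ) : ℝ := (st' ((x - c) / L) + st' ((-x - c) / L)) / L

theorem Fo_der (c L x : ℝ) : HasDerivAt (Fo c L) (Fo' c L x) x := by
  have h1 : HasDerivAt (fun x : ℝ => (x - c) / L) (1 / L) x :=
    ((hasDerivAt_id x).sub_const c).div_const L
  have h2 : HasDerivAt (fun x : ℝ => (-x - c) / L) (-1 / L) x :=
    (((hasDerivAt_id x).neg).sub_const c).div_const L
  have h3 := ((st_der _).comp x h1).sub ((st_der _).comp x h2)
  refine h3.congr_deriv ?_
  rw [Fo']
  ring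

theorem Fo'_cont (c L : ℝ) : Continuous (Fo' c L) := by
  have := st'_cont
  unfold Fo'
  fun_prop

theorem Fo_cont (c L : ℝ) : Continuous (Fo c L) :=
  continuous_iff_continuousAt.2 fun x => (Fo_der c L x).continuousAt

theorem Fo_odd (c L x : ℝ) : Fo c L (-x) = -Fo c L x := by
  rw [Fo, Fo, neg_neg]
  ring

theorem Fo_in {c L x : ℝ} (hL : 0 < L) (hx : |x| ≤ c) : Fo c L x = 0 := by
  have h := abs_le.1 hx
  rw [Fo, st_neg (div_nonpos_of_nonpos_of_nonneg (by linarith [h.2]) hL.le),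
    st_neg (div_nonpos_of_nonpos_of_nonneg (by linarith [h.1]) hL.le), sub_zero]

theorem Fo_out {c L x : ℝ} (hc : 0 ≤ c) (hL : 0 < L) (hx : c + L ≤ x) : Fo c L x = 1 := by
  rw [Fo, st_neg (x := (-x - c) / L) (div_nonpos_of_nonpos_of_nonneg (by linarith) hL.le),
    st_one (by rw [le_div_iff₀ hL]; linarith), sub_zero]

theorem Fo_out' {c L x : ℝ} (hc : 0 ≤ c) (hL : 0 < L) (hx : x ≤ -(c + L)) : Fo c L x = -1 := by
  rw [← neg_neg x, Fo_odd, Fo_out hc hL (by linarith)]

theorem Fo_right {c L x : ℝ} (hL : 0 < L) (hx : -c ≤ x) : Fo c L x = st ((x - c) / L) := by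
  rw [Fo, st_neg (x := (-x - c) / L) (div_nonpos_of_nonpos_of_nonneg (by linarith) hL.le), sub_zero]

theorem Fo'_in {c L x : ℝ} (hL : 0 < L) (hx : |x| ≤ c) : Fo' c L x = 0 := by
  have h := abs_le.1 hx
  rw [Fo', st'_neg (div_nonpos_of_nonpos_of_nonneg (by linarith [h.2]) hL.le),
    st'_neg (div_nonpos_of_nonpos_of_nonneg (by linarith [h.1]) hL.le), add_zero, zero_div]

theorem Fo'_out {c L x : ℝ} (hc : 0 ≤ c) (hL : 0 < L) (hx : c + L ≤ |x|) : Fo' c L x = 0 := by
  rcases le_total 0 x with h | h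
  · rw [abs_of_nonneg h] at hx
    rw [Fo', st'_neg (x := (-x - c) / L) (div_nonpos_of_nonpos_of_nonneg (by linarith) hL.le),
      st'_one (by rw [le_div_iff₀ hL]; linarith), add_zero, zero_div]
  · rw [abs_of_nonpos h] at hx
    rw [Fo', st'_neg (x := (x - c) / L) (div_nonpos_of_nonpos_of_nonneg (by linarith) hL.le),
      st'_one (by rw [le_div_iff₀ hL]; linarith), add_zero, zero_div]

theorem Fo'_sq {c L : ℝ} (hc : 0 ≤ c) (hL : 0 < L) (x : ℝ) :
    Fo' c L x * Fo' c L x ≤ 16 / 9 / L ^ 2 := by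
  have h1 : Fo' c L x ≤ 4 / 3 / L := by
    rw [Fo']
    refine div_le_div_of_nonneg_right ?_ hL.le
    rcases le_total 0 x with h | h
    · rw [st'_neg (x := (-x - c) / L) (div_nonpos_of_nonpos_of_nonneg (by linarith) hL.le), add_zero]
      exact st'_le _
    · rw [st'_neg (x := (x - c) / L) (div_nonpos_of_nonpos_of_nonneg (by linarith) hL.le), zero_add]
      exact st'_le _
  have h2 : 0 ≤ Fo' c L x := div_nonneg (add_nonneg (st'_nonneg _) (st'_nonneg _)) hL.le
  calc _ ≤ (4 / 3 / L) * (4 / 3 / L) := mul_le_mul h1 h1 h2 (by positivity)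
    _ = _ := by
      field_simp
      norm_num

/-- the integral of a function which is bounded by a constant on a shell and vanishes elsewhere -/
theorem shell_int {f : ℝ → ℝ} {a b M : ℝ} (hab : a ≤ b) (hM : 0 ≤ M)
    (h0 : ∀ x, |x| < a → f x = 0) (h1 : ∀ x, b < |x| → f x = 0) (h2 : ∀ x, f x ≤ M) :
    ∫ x, f x ≤ M * (2 * (b - a)) := by
  have i1 : Integrable (indicator (Icc a b) fun _ : ℝ => M) :=
    (integrable_indicator_iff measurableSet_Icc).2 (integrableOn_const (by simp))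
  have i2 : Integrable (indicator (Icc (-b) (-a)) fun _ : ℝ => M) :=
    (integrable_indicator_iff measurableSet_Icc).2 (integrableOn_const (by simp))
  have h3 : ∀ x, f x ≤ indicator (Icc a b) (fun _ : ℝ => M) x +
      indicator (Icc (-b) (-a)) (fun _ : ℝ => M) x := by
    intro x
    have p1 : 0 ≤ indicator (Icc a b) (fun _ : ℝ => M) x := indicator_nonneg (fun _ _ => hM) x
    have p2 : 0 ≤ indicator (Icc (-b) (-a)) (fun _ : ℝ => M) x :=
      indicator_nonneg (fun _ _ => hM) x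
    by_cases hx : |x| < a
    · rw [h0 x hx]
      linarith
    by_cases hx' : b < |x|
    · rw [h1 x hx']
      linarith
    rcases le_total 0 x with h | h
    · rw [abs_of_nonneg h] at hx hx'
      rw [indicator_of_mem (show x ∈ Icc a b from ⟨not_lt.1 hx, not_lt.1 hx'⟩)]
      linarith [h2 x]
    · rw [abs_of_nonpos h] at hx hx'
      rw [indicator_of_mem (show x ∈ Icc (-b) (-a) from ⟨by linarith, by linarith⟩)]
      linarith [h2 x]
  have h4 : ∫ x, (indicator (Icc a b) (fun _ : ℝ => M) x +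
      indicator (Icc (-b) (-a)) (fun _ : ℝ => M) x) = M * (2 * (b - a)) := by
    rw [integral_add i1 i2, integral_indicator measurableSet_Icc,
      integral_indicator measurableSet_Icc]
    simp only [integral_const, smul_eq_mul, MeasurableSet.univ, measureReal_restrict_apply,
      univ_inter, Real.volume_real_Icc]
    rw [max_eq_left (by linarith), max_eq_left (by linarith)]
    ring
  rw [← h4]
  by_cases hf : Integrable f
  · exact integral_mono hf (i1.add i2) h3
  · rw [integral_undef hf, h4]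
    have : 0 ≤ b - a := by linarith
    positivity

/-- the three steps -/
def F1 : ℝ → ℝ := Fo 1 100
def F2 : ℝ → ℝ := Fo (203 / 2) 1
def F3 : ℝ → ℝ := Fo (205 / 2) 100
def G1 : ℝ → ℝ := Fo' 1 100
def G2 : ℝ → ℝ := Fo' (203 / 2) 1
def G3 : ℝ → ℝ := Fo' (205 / 2) 100

def A1 (x : ℝ) : ℝ := F1 x - F2 x
def A2 (x : ℝ) : ℝ := F2 x - F3 x
def A1' (x : ℝ) : ℝ := G1 x - G2 x
def A2' (x : ℝ) : ℝ := G2 x - G3 x

theorem A1_out {x : ℝ} (hx : 205 / 2 ≤ |x|) : A1 x = 0 := by
  rcases le_total 0 x with h | h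
  · rw [abs_of_nonneg h] at hx
    rw [A1, F1, F2, Fo_out (by norm_num) (by norm_num) (by linarith),
      Fo_out (by norm_num) (by norm_num) (by linarith), sub_self]
  · rw [abs_of_nonpos h] at hx
    rw [A1, F1, F2, Fo_out' (by norm_num) (by norm_num) (by linarith),
      Fo_out' (by norm_num) (by norm_num) (by linarith), sub_self]

theorem A2_out {x : ℝ} (hx : 405 / 2 ≤ |x|) : A2 x = 0 := by
  rcases le_total 0 x with h | h
  · rw [abs_of_nonneg h] at hx
    rw [A2, F2, F3, Fo_out (by norm_num) (by norm_num) (by linarith),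
      Fo_out (by norm_num) (by norm_num) (by linarith), sub_self]
  · rw [abs_of_nonpos h] at hx
    rw [A2, F2, F3, Fo_out' (by norm_num) (by norm_num) (by linarith),
      Fo_out' (by norm_num) (by norm_num) (by linarith), sub_self]

theorem A1_in {x : ℝ} (hx : |x| ≤ 1) : A1 x = 0 := by
  rw [A1, F1, F2, Fo_in (by norm_num) hx, Fo_in (by norm_num) (hx.trans (by norm_num)), sub_self]

theorem A2_in {x : ℝ} (hx : |x| ≤ 203 / 2) : A2 x = 0 := by
  rw [A2, F3, F2, Fo_in (by norm_num) hx, Fo_in (by norm_num) (hx.trans (by norm_num)), sub_self]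

theorem A1_odd (x : ℝ) : A1 (-x) = -A1 x := by
  rw [A1, A1, F1, F2, Fo_odd, Fo_odd]
  ring

theorem A2_odd (x : ℝ) : A2 (-x) = -A2 x := by
  rw [A2, A2, F2, F3, Fo_odd, Fo_odd]
  ring

theorem cs_of {f : ℝ → ℝ} (R : ℝ) (h : ∀ x, R ≤ |x| → f x = 0) : HasCompactSupport f := by
  refine HasCompactSupport.intro (isCompact_Icc (a := -R) (b := R)) fun x hx => h x ?_
  by_contra h'
  exact hx (abs_le.1 (not_le.1 h').le)

theorem A1_CC : CC A1 A1' :=
  ⟨fun x => (Fo_der _ _ x).sub (Fo_der _ _ x), (Fo'_cont _ _).sub (Fo'_cont _ _),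
    cs_of _ fun _ hx => A1_out hx⟩

theorem A2_CC : CC A2 A2' :=
  ⟨fun x => (Fo_der _ _ x).sub (Fo_der _ _ x), (Fo'_cont _ _).sub (Fo'_cont _ _),
    cs_of _ fun _ hx => A2_out hx⟩

theorem G12 (x : ℝ) : G1 x * G2 x = 0 := by
  rcases le_total |x| (203 / 2) with h | h
  · rw [G2, Fo'_in (by norm_num) h, mul_zero]
  · rw [G1, Fo'_out (by norm_num) (by norm_num) (le_trans (by norm_num) h), zero_mul]

theorem G23 (x : ℝ) : G2 x * G3 x = 0 := by
  rcases le_total |x| (205 / 2) with h | h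
  · rw [G3, Fo'_in (by norm_num) h, mul_zero]
  · rw [G2, Fo'_out (by norm_num) (by norm_num) (le_trans (by norm_num) h), zero_mul]

theorem G13 (x : ℝ) : G1 x * G3 x = 0 := by
  rcases le_total |x| (205 / 2) with h | h
  · rw [G3, Fo'_in (by norm_num) h, mul_zero]
  · rw [G1, Fo'_out (by norm_num) (by norm_num) (le_trans (by norm_num) h), zero_mul]

/-- the three energies -/
def r1 : ℝ := ∫ x, G1 x * G1 x
def r2 : ℝ := ∫ x, G2 x * G2 x
def r3 : ℝ := ∫ x, G3 x * G3 x

theorem Gi (c L : ℝ) (hc : 0 ≤ c) (hL : 0 < L) : Integrable (fun x => Fo' c L x * Fo' c L x) :=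
  int_mul (Fo'_cont c L) (Fo'_cont c L) (cs_of (c + L) fun _ hx => Fo'_out hc hL hx)

theorem Gb (c L : ℝ) (hc : 0 ≤ c) (hL : 0 < L) :
    ∫ x, Fo' c L x * Fo' c L x ≤ 16 / 9 / L ^ 2 * (2 * (c + L - c)) := by
  refine shell_int (by linarith) (by positivity) (fun x hx => ?_) (fun x hx => ?_)
    (fun x => Fo'_sq hc hL x)
  · rw [Fo'_in hL hx.le, zero_mul]
  · rw [Fo'_out hc hL hx.le, zero_mul]

theorem r1_le : r1 ≤ 32 / 900 := by
  have := Gb 1 100 (by norm_num) (by norm_num)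
  refine this.trans ?_
  norm_num

theorem r2_le : r2 ≤ 32 / 9 := by
  have := Gb (203 / 2) 1 (by norm_num) (by norm_num)
  refine this.trans ?_
  norm_num

theorem r3_le : r3 ≤ 32 / 900 := by
  have := Gb (205 / 2) 100 (by norm_num) (by norm_num)
  refine this.trans ?_
  norm_num

theorem Gi1 : Integrable (fun x => G1 x * G1 x) := Gi 1 100 (by norm_num) (by norm_num)
theorem Gi2 : Integrable (fun x => G2 x * G2 x) := Gi (203 / 2) 1 (by norm_num) (by norm_num)
theorem Gi3 : Integrable (fun x => G3 x * G3 x) := Gi (205 / 2) 100 (by norm_num) (by norm_num)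

theorem P11 : ∫ x, A1' x * A1' x = r1 + r2 := by
  rw [r1, r2, ← integral_add Gi1 Gi2]
  congr 1
  funext x
  simp only [A1']
  linear_combination (-2) * G12 x

theorem P22 : ∫ x, A2' x * A2' x = r2 + r3 := by
  rw [r3, r2, ← integral_add Gi2 Gi3]
  congr 1
  funext x
  simp only [A2']
  linear_combination (-2) * G23 x

theorem P12 : ∫ x, A1' x * A2' x = -r2 := by
  rw [r2, ← integral_neg]
  congr 1
  funext x
  simp only [A2', A1']
  linear_combination G12 x - G13 x + G23 x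

/-- the mismatch of the two profiles -/
def mm (x : ℝ) : ℝ := if |x| < rad then A2 x * A2 x else A1 x * A1 x

theorem A2_le {x : ℝ} (hx : |x| < rad) : A2 x * A2 x ≤ 1 / 4 := by
  have key : ∀ x : ℝ, 0 ≤ x → x < rad → A2 x * A2 x ≤ 1 / 4 := by
    intro x h0 hx
    rw [rad] at hx
    have h1 : F3 x = 0 := Fo_in (by norm_num) (by rw [abs_of_nonneg h0]; linarith)
    have h2 : F2 x = st ((x - 203 / 2) / 1) := Fo_right (by norm_num) (by linarith)
    have h3 : st ((x - 203 / 2) / 1) ≤ 1 / 2 := by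
      rw [← st_half]
      exact st_mono (by linarith)
    have h4 : 0 ≤ st ((x - 203 / 2) / 1) := by
      rw [← st_neg (x := min 0 ((x - 203 / 2) / 1)) (min_le_left _ _)]
      exact st_mono (min_le_right _ _)
    rw [A2, h1, h2, sub_zero]
    nlinarith
  rcases le_total 0 x with h | h
  · exact key x h (by rwa [abs_of_nonneg h] at hx)
  · have := key (-x) (by linarith) (by rwa [abs_of_nonpos h] at hx)
    rwa [A2_odd, neg_mul_neg] at this

theorem A1_le {x : ℝ} (hx : rad ≤ |x|) : A1 x * A1 x ≤ 1 / 4 := by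
  have key : ∀ x : ℝ, rad ≤ x → A1 x * A1 x ≤ 1 / 4 := by
    intro x hx
    rw [rad] at hx
    have h1 : F1 x = 1 := Fo_out (by norm_num) (by norm_num) (by linarith)
    have h2 : F2 x = st ((x - 203 / 2) / 1) := Fo_right (by norm_num) (by linarith)
    have h3 : 1 / 2 ≤ st ((x - 203 / 2) / 1) := by
      rw [← st_half]
      exact st_mono (by linarith)
    have h4 : st ((x - 203 / 2) / 1) ≤ 1 := by
      have h5 := st_mono (le_max_right 1 ((x - 203 / 2) / 1))
      rwa [st_one (le_max_left _ _)] at h5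
    rw [A1, h1, h2]
    nlinarith
  rcases le_total 0 x with h | h
  · exact key x (by rwa [abs_of_nonneg h] at hx)
  · have := key (-x) (by rwa [abs_of_nonpos h] at hx)
    rwa [A1_odd, neg_mul_neg] at this

theorem mm_le (x : ℝ) : mm x ≤ 1 / 4 := by
  rw [mm]
  split_ifs with h
  · exact A2_le h
  · exact A1_le (not_lt.1 h)

theorem mm_nonneg (x : ℝ) : 0 ≤ mm x := by
  rw [mm]
  split_ifs with h
  · exact mul_self_nonneg _
  · exact mul_self_nonneg _

theorem mm_in {x : ℝ} (hx : |x| < 203 / 2) : mm x = 0 := by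
  rw [mm, if_pos (lt_trans hx (by rw [rad]; norm_num)), A2_in hx.le, mul_zero]

theorem mm_out {x : ℝ} (hx : 205 / 2 < |x|) : mm x = 0 := by
  rw [mm, if_neg (not_lt.2 (le_trans (by rw [rad]; norm_num) hx.le)), A1_out hx.le, mul_zero]

theorem mm_int : Integrable mm := by
  have h1 : Measurable mm := by
    unfold mm
    exact Measurable.ite (measurableSet_lt measurable_abs measurable_const)
      (A2_CC.cont.mul A2_CC.cont).measurable (A1_CC.cont.mul A1_CC.cont).measurable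
  have h2 : Integrable (indicator (Icc (-(205 / 2)) (205 / 2)) fun _ : ℝ => (1 / 4 : ℝ)) :=
    (integrable_indicator_iff measurableSet_Icc).2 (integrableOn_const (by simp))
  refine h2.mono' h1.aestronglyMeasurable (Eventually.of_forall fun x => ?_)
  rw [Real.norm_eq_abs, abs_of_nonneg (mm_nonneg x)]
  by_cases hx : 205 / 2 < |x|
  · rw [mm_out hx]
    exact indicator_nonneg (fun _ _ => by norm_num) x
  · rw [indicator_of_mem (show x ∈ Icc (-(205 / 2)) (205 / 2) from abs_le.1 (not_lt.1 hx))]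
    exact mm_le x

theorem mm_integral : ∫ x, mm x ≤ 1 / 2 := by
  have := shell_int (f := mm) (a := 203 / 2) (b := 205 / 2) (M := 1 / 4) (by norm_num)
    (by norm_num) (fun x hx => mm_in hx) (fun x hx => mm_out hx) mm_le
  refine this.trans ?_
  norm_num

theorem mm_integral_nonneg : 0 ≤ ∫ x, mm x := integral_nonneg mm_nonneg

/-- the profile in `y` of the right part -/
def bs (δ y : ℝ) : ℝ := bb δ (y + ste)

def bs' (δ y : ℝ) : ℝ := db δ (y + ste)

theorem bs_CC {δ : ℝ} (hδ : 0 < δ) : CC (bs δ) (bs' δ) := by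
  refine ⟨fun y => ?_, ?_, ?_⟩
  · have h1 : HasDerivAt (fun y : ℝ => y + ste) 1 y := (hasDerivAt_id y).add_const ste
    have h2 := (bb_der hδ (y + ste)).comp y h1
    rw [mul_one] at h2
    exact h2
  · have := db_cont hδ
    unfold bs'
    fun_prop
  · exact (bb_cs hδ).comp_homeomorph (Homeomorph.addRight ste)

theorem bs_sq (δ : ℝ) : ∫ y, bs δ y * bs δ y = ∫ y, bb δ y * bb δ (y + 0) := by
  simp only [bs, add_zero]
  exact integral_add_right_eq_self (fun y => bb δ y * bb δ y) ste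

theorem bs'_sq (δ : ℝ) : ∫ y, bs' δ y * bs' δ y = ∫ y, db δ y * db δ (y + 0) := by
  simp only [bs', add_zero]
  exact integral_add_right_eq_self (fun y => db δ y * db δ y) ste

/-- the test function -/
def uu (δ : ℝ) : ℝ × ℝ → ℂ := ten A1 (bb δ) A2 (bs δ)

theorem hor_uu (δ t : ℝ) : hor t (uu δ) = bb δ 0 ^ 2 * ((∫ x, A1 x * A1 x) + ∫ x, A2 x * A2 x) +
    2 * (bb δ 0 * bb δ ste) * (∫ x, A1 x * A2 x) - (bb δ 0 ^ 2 - bb δ ste ^ 2) * ∫ x, mm x := by
  have i1 := int_mul A1_CC.cont A1_CC.cont A1_CC.cs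
  have i2 := int_mul A2_CC.cont A2_CC.cont A2_CC.cs
  have i3 := int_mul A1_CC.cont A2_CC.cont A1_CC.cs
  have e : ∀ x, ‖uu δ (x, hgt t x)‖ ^ 2 = bb δ 0 ^ 2 * (A1 x * A1 x + A2 x * A2 x) +
      2 * (bb δ 0 * bb δ ste) * (A1 x * A2 x) - (bb δ 0 ^ 2 - bb δ ste ^ 2) * mm x := by
    intro x
    rw [uu, ten, Complex.norm_real, Real.norm_eq_abs, sq_abs]
    simp only [bs, hgt, mm]
    by_cases h1 : |x| < del
    · have h2 : |x| ≤ 1 := h1.le.trans (by rw [del]; norm_num)
      rw [A1_in h2, A2_in (h2.trans (by norm_num))]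
      simp
    · by_cases h2 : |x| < rad
      · simp only [if_neg h1, if_pos h2, zero_add]
        ring
      · simp only [if_neg h1, if_neg h2, neg_add_cancel, bb_neg]
        ring
  have i4 : Integrable (fun x => bb δ 0 ^ 2 * (A1 x * A1 x + A2 x * A2 x)) :=
    (i1.add i2).const_mul _
  have i5 : Integrable (fun x => 2 * (bb δ 0 * bb δ ste) * (A1 x * A2 x)) := i3.const_mul _
  have i6 : Integrable (fun x => bb δ 0 ^ 2 * (A1 x * A1 x + A2 x * A2 x) +
      2 * (bb δ 0 * bb δ ste) * (A1 x * A2 x)) := i4.add i5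
  have i7 : Integrable (fun x => (bb δ 0 ^ 2 - bb δ ste ^ 2) * mm x) := mm_int.const_mul _
  rw [hor]
  simp_rw [e]
  rw [integral_sub i6 i7, integral_add i4 i5, integral_const_mul, integral_const_mul,
    integral_const_mul, integral_add i1 i2]

theorem bb_lower {δ y : ℝ} (hδ : 0 < δ) (hδ1 : δ ≤ 1 / 4) (hy : |y| ≤ 1 / 4) :
    1 - |y| / 2 - 2 * δ ≤ bb δ y := by
  have h0 := abs_nonneg y
  have h1 : √(y ^ 2 + δ ^ 2) ≤ |y| + δ := by
    rw [Real.sqrt_le_left (by positivity)]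
    rw [← sq_abs y]
    nlinarith
  have h2 : 1 - (|y| + δ) / 2 ≤ Real.exp (-(√(y ^ 2 + δ ^ 2) / 2)) := by
    have := Real.add_one_le_exp (-(√(y ^ 2 + δ ^ 2) / 2))
    linarith
  have h3 : 1 - δ ≤ pp (1 - (δ * y) ^ 2) := by
    have h4 : (δ * y) ^ 2 ≤ δ / 2 := by
      rw [mul_pow, ← sq_abs y]
      have : |y| ^ 2 ≤ 1 := by nlinarith
      calc δ ^ 2 * |y| ^ 2 ≤ δ ^ 2 * 1 := mul_le_mul_of_nonneg_left this (sq_nonneg _)
        _ ≤ δ / 2 := by nlinarith
    have h5 : 0 ≤ 1 - (δ * y) ^ 2 := by linarith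
    rw [pp, max_eq_right h5]
    nlinarith [sq_nonneg ((δ * y) ^ 2)]
  have h6 : (1 - (|y| + δ) / 2) * (1 - δ) ≤ bb δ y :=
    mul_le_mul h2 h3 (by linarith) (Real.exp_pos _).le
  refine le_trans ?_ h6
  nlinarith

theorem A1_rad : A1 rad = 1 / 2 := by
  rw [A1, F1, F2, rad, Fo_out (by norm_num) (by norm_num) (by norm_num),
    Fo_right (by norm_num) (by norm_num), show ((102 : ℝ) - 203 / 2) / 1 = 1 / 2 by norm_num,
    st_half]
  norm_num

theorem A2_rad : A2 rad = 1 / 2 := by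
  rw [A2, F3, F2, rad, Fo_right (by norm_num) (by norm_num),
    show ((102 : ℝ) - 203 / 2) / 1 = 1 / 2 by norm_num, st_half,
    Fo_in (by norm_num) (by rw [abs_of_nonneg] <;> norm_num)]
  norm_num

theorem wal_uu {δ t : ℝ} (hδ : 0 < δ) (hδ1 : δ ≤ 1 / 4) (ht : 0 ≤ t) :
    1 / 8 * (15 / 8 - 4 * δ) ^ 2 ≤ wal t (uu δ) := by
  have hval : ∀ x y, ‖uu δ (x, y)‖ ^ 2 = (A1 x * bb δ y + A2 x * bs δ y) ^ 2 := by
    intro x y
    rw [uu, ten, Complex.norm_real, Real.norm_eq_abs, sq_abs]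
  have e1 : wal t (uu δ) = ∫ y in Ioo (-ste) 0, 1 / 2 * (bb δ y + bs δ y) ^ 2 := by
    rw [wal, setIntegral_eq_of_subset_of_forall_sdiff_eq_zero measurableSet_Ioo
      (Ioo_subset_Ioo_right ht)]
    · refine setIntegral_congr_fun measurableSet_Ioo fun y hy => ?_
      have h1 : pos y = rad := if_pos hy.2
      simp only [hval, h1, A1_odd, A2_odd, A1_rad, A2_rad]
      ring
    · intro y hy
      have h1 : pos y = del := if_neg fun h => hy.2 ⟨hy.1.1, h⟩
      have h2 : |del| ≤ 1 := by rw [del, abs_of_nonneg] <;> norm_num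
      have h3 : |-del| ≤ 1 := by rwa [abs_neg]
      simp only [hval, h1, A1_in h2, A2_in (h2.trans (by norm_num)), A1_in h3,
        A2_in (h3.trans (by norm_num))]
      ring
  have e2 : ∫ y in Ioo (-ste) 0, (1 / 2 * (15 / 8 - 4 * δ) ^ 2 : ℝ) =
      1 / 8 * (15 / 8 - 4 * δ) ^ 2 := by
    simp only [integral_const, smul_eq_mul, MeasurableSet.univ, measureReal_restrict_apply,
      univ_inter, Real.volume_real_Ioo]
    rw [ste, max_eq_left (by norm_num)]
    ring
  rw [e1, ← e2]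
  have hc : Continuous (fun y => 1 / 2 * (bb δ y + bs δ y) ^ 2) := by
    have h1 := bb_cont δ
    have h2 := (bs_CC hδ).cont
    fun_prop
  refine setIntegral_mono_on (integrableOn_const (by simp))
    ((hc.integrableOn_Icc (a := -ste) (b := 0)).mono_set Ioo_subset_Icc_self)
    measurableSet_Ioo fun y hy => ?_
  have hy1 : -(1 / 4) < y := by
    have := hy.1
    rwa [ste] at this
  have hy2 : y < 0 := hy.2
  have h1 := bb_lower hδ hδ1 (y := y) (by rw [abs_of_neg hy2]; linarith)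
  have h2 := bb_lower hδ hδ1 (y := y + ste) (by
    rw [ste, abs_of_pos (by linarith)]
    linarith)
  rw [abs_of_neg hy2] at h1
  rw [ste, abs_of_pos (by linarith)] at h2
  have h3 : 15 / 8 - 4 * δ ≤ bb δ y + bs δ y := by
    rw [bs, ste]
    linarith
  have h4 : 0 ≤ 15 / 8 - 4 * δ := by linarith
  have h5 : (15 / 8 - 4 * δ) ^ 2 ≤ (bb δ y + bs δ y) ^ 2 := pow_le_pow_left₀ h4 h3 2
  linarith

/-- the number which has to be negative -/
def qq (δ : ℝ) : ℝ :=
  (r1 + r2) * (∫ y, bb δ y * bb δ (y + 0)) + 2 * (-r2 * ∫ y, bb δ y * bb δ (y + ste)) +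
    (r2 + r3) * (∫ y, bb δ y * bb δ (y + 0)) +
  ((∫ x, A1 x * A1 x) + ∫ x, A2 x * A2 x) *
    ((∫ y, db δ y * db δ (y + 0)) + (∫ y, bb δ y * bb δ (y + 0)) / 4 - bb δ 0 ^ 2) +
  2 * (∫ x, A1 x * A2 x) * ((∫ y, db δ y * db δ (y + ste)) +
    (∫ y, bb δ y * bb δ (y + ste)) / 4 - bb δ 0 * bb δ ste) +
  (bb δ 0 ^ 2 - bb δ ste ^ 2) * (∫ x, mm x) - 1 / 8 * (15 / 8 - 4 * δ) ^ 2

theorem Q_le {δ t : ℝ} (hδ : 0 < δ) (hδ1 : δ ≤ 1 / 4) (ht : 0 ≤ t) : Q t (uu δ) ≤ qq δ := by
  have hb := bb_CC hδ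
  have hs := bs_CC hδ
  have h1 := wal_uu hδ hδ1 ht
  have e1 : ∫ y, bb δ y * bs δ y = ∫ y, bb δ y * bb δ (y + ste) := rfl
  have e2 : ∫ y, db δ y * bs' δ y = ∫ y, db δ y * db δ (y + ste) := rfl
  have e3 : ∫ y, bb δ y * bb δ y = ∫ y, bb δ y * bb δ (y + 0) := by simp only [add_zero]
  have e4 : ∫ y, db δ y * db δ y = ∫ y, db δ y * db δ (y + 0) := by simp only [add_zero]
  have hX : gX (uu δ) = _ := ten_gX A1_CC A2_CC hb hs
  have hY : gY (uu δ) = _ := ten_gY A1_CC A2_CC hb hs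
  have hN : nrm (uu δ) = _ := ten_nrm A1_CC A2_CC hb hs
  rw [Q, hX, hY, hN, hor_uu, P11, P12, P22, bs_sq, bs'_sq, e1, e2, e3, e4, qq]
  linarith

theorem exists_qq : ∃ δ : ℝ, 0 < δ ∧ δ ≤ 1 / 4 ∧ qq δ < 0 := by
  have l1 := lim1 0
  have l2 := lim1 ste
  have l3 := lim2 0
  have l4 := lim2 ste
  have l5 := bb_lim 0
  have l6 := bb_lim ste
  have l7 : Tendsto (fun δ : ℝ => 1 / 8 * (15 / 8 - 4 * δ) ^ 2) (𝓝[>] 0)
      (𝓝 (1 / 8 * (15 / 8 - 4 * 0) ^ 2)) := by
    have h : Continuous (fun δ : ℝ => 1 / 8 * (15 / 8 - 4 * δ) ^ 2) := by fun_prop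
    exact (h.tendsto 0).mono_left nhdsWithin_le_nhds
  have h1 : Tendsto qq (𝓝[>] 0) (𝓝 (qq 0)) :=
    ((((((l1.const_mul (r1 + r2)).add ((l2.const_mul (-r2)).const_mul 2)).add
      (l1.const_mul (r2 + r3))).add
      (((l3.add (l1.div_const 4)).sub (l5.pow 2)).const_mul _)).add
      (((l4.add (l2.div_const 4)).sub (l5.mul l6)).const_mul _)).add
      (((l5.pow 2).sub (l6.pow 2)).mul_const _)).sub l7
  have h2 : qq 0 < 0 := by
    have hste : (0 : ℝ) ≤ ste := by rw [ste]; norm_num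
    rw [qq, int1 0 le_rfl, int2 0 le_rfl, int1 ste hste, int2 ste hste, bb_zero, bb_zero]
    have k1 : Real.exp (-(|ste| / 2)) = Real.exp (-(ste / 2)) := by rw [abs_of_nonneg hste]
    have k2 : Real.exp (-(|(0 : ℝ)| / 2)) = 1 := by simp
    have k3 : Real.exp (-((0 : ℝ) / 2)) = 1 := by simp
    rw [k1, k2, k3]
    set E := Real.exp (-(ste / 2)) with hE
    have hE1 : (31 / 32 : ℝ) ^ 4 ≤ E := by
      have h5 : (31 / 32 : ℝ) ≤ Real.exp (-(1 / 32)) := by
        have := Real.add_one_le_exp (-(1 / 32 : ℝ))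
        linarith
      have h6 : E = Real.exp (-(1 / 32)) ^ 4 := by
        rw [hE, ← Real.exp_nat_mul, ste]
        congr 1
        norm_num
      rw [h6]
      exact pow_le_pow_left₀ (by norm_num) h5 4
    have hE2 : 3 / 4 ≤ E ^ 2 := by nlinarith
    have hE3 : E ≤ 1 := by
      rw [hE, Real.exp_le_one_iff]
      linarith
    have m1 := mm_integral
    have m2 := mm_integral_nonneg
    have n1 := r1_le
    have n2 := r2_le
    have n3 := r3_le
    have n4 : 0 ≤ r2 := integral_nonneg fun x => mul_self_nonneg _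
    have hG : 2 - (2 + ste) * E ≤ 1 / 50 := by
      rw [ste]
      norm_num at hE1
      linarith
    have hG0 : r2 * (2 - (2 + ste) * E) ≤ 32 / 9 * (1 / 50) := by
      calc r2 * (2 - (2 + ste) * E) ≤ r2 * (1 / 50) := mul_le_mul_of_nonneg_left hG n4
        _ ≤ _ := mul_le_mul_of_nonneg_right n2 (by norm_num)
    have hM : (1 - E ^ 2) * (∫ x, mm x) ≤ 1 / 4 * (1 / 2) :=
      mul_le_mul (by linarith) m1 m2 (by norm_num)
    have hz1 : ((2 - 0) / 4 * 1 + (2 + 0) * 1 / 4 - 1 ^ 2 : ℝ) = 0 := by norm_num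
    have hz2 : ((2 - ste) / 4 * E + (2 + ste) * E / 4 - 1 * E : ℝ) = 0 := by ring
    rw [hz1, hz2]
    simp only [mul_zero, add_zero, one_pow, mul_one]
    linarith
  have h3 := (h1.eventually (gt_mem_nhds h2)).and (Ioo_mem_nhdsGT (show (0 : ℝ) < 1 / 4 by norm_num))
  obtain ⟨δ, hδ, hδ'⟩ := h3.exists
  exact ⟨δ, hδ'.1, hδ'.2.le, hδ⟩

/-- the job TODD -/
theorem jobTestOdd : JobTestOdd := by
  obtain ⟨δ, hδ, hδ1, hq⟩ := exists_qq
  refine ⟨uu δ, ten_core A1_CC A2_CC (bb_CC hδ) (bs_CC hδ), ?_, fun t ht =>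
    lt_of_le_of_lt (Q_le hδ hδ1 ht.1) hq⟩
  intro x y
  simp only [uu, ten, A1_odd, A2_odd]
  push_cast
  ring

end

end Pool.Agent.U324.DE
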