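import Pool.Agent.U324.DE.Tens

set_option autoImplicit false

open MeasureTheory Filter Topology Set

namespace Pool.Agent.U324.DE

open Pool.Agent.U469.DE

noncomputable section

/-- squared positive part -/
def pp (x : ℝ) : ℝ := max 0 x ^ 2

theorem pp_nonneg (x : ℝ) : 0 ≤ pp x := sq_nonneg _

theorem pp_cont : Continuous pp := by
  unfold pp
  fun_prop

theorem pp_der (x : ℝ) : HasDerivAt pp (2 * max 0 x) x := by
  rcases lt_trichotomy x 0 with hx | hx | hx
  · have h1 : pp =ᶠ[𝓝 x] fun _ => 0 := by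
      filter_upwards [Iio_mem_nhds hx] with y hy
      rw [pp, max_eq_left (le_of_lt hy)]
      ring
    rw [max_eq_left hx.le, mul_zero]
    exact (hasDerivAt_const x (0 : ℝ)).congr_of_eventuallyEq h1
  · subst hx
    rw [max_self, mul_zero, hasDerivAt_iff_isLittleO_nhds_zero]
    have h1 : (fun h : ℝ => pp (0 + h) - pp 0 - h • (0 : ℝ)) =O[𝓝 0] fun h : ℝ => h ^ 2 := by
      refine Asymptotics.IsBigO.of_bound 1 (Eventually.of_forall fun h => ?_)
      have h2 : pp (0 + h) - pp 0 - h • (0 : ℝ) = max 0 h ^ 2 := by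
        simp [pp]
      rw [h2, one_mul, Real.norm_eq_abs, Real.norm_eq_abs, abs_of_nonneg (sq_nonneg _),
        abs_of_nonneg (sq_nonneg _)]
      rcases le_total 0 h with h3 | h3
      · rw [max_eq_right h3]
      · rw [max_eq_left h3]
        simpa using sq_nonneg h
    exact h1.trans_isLittleO (Asymptotics.isLittleO_pow_id (by norm_num))
  · have h1 : pp =ᶠ[𝓝 x] fun y => y ^ 2 := by
      filter_upwards [Ioi_mem_nhds hx] with y hy
      rw [pp, max_eq_right (le_of_lt hy)]
    rw [max_eq_right hx.le]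
    have h2 := hasDerivAt_pow 2 x
    refine (h2.congr_of_eventuallyEq h1).congr_deriv ?_
    norm_num

/-- the cut-off and smoothed exponential -/
def bb (δ y : ℝ) : ℝ := Real.exp (-(√(y ^ 2 + δ ^ 2) / 2)) * pp (1 - (δ * y) ^ 2)

/-- its derivative -/
def db (δ y : ℝ) : ℝ := Real.exp (-(√(y ^ 2 + δ ^ 2) / 2)) *
  (-(y / (2 * √(y ^ 2 + δ ^ 2))) * pp (1 - (δ * y) ^ 2) +
    2 * max 0 (1 - (δ * y) ^ 2) * (-(2 * (δ * (δ * y)))))

theorem bb_neg (δ y : ℝ) : bb δ (-y) = bb δ y := by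
  unfold bb
  rw [show (-y) ^ 2 = y ^ 2 by ring, show (δ * -y) ^ 2 = (δ * y) ^ 2 by ring]

theorem bb_cont (δ : ℝ) : Continuous (bb δ) := by
  have := pp_cont
  unfold bb
  fun_prop

theorem bb_der {δ : ℝ} (hδ : 0 < δ) (y : ℝ) : HasDerivAt (bb δ) (db δ y) y := by
  have h0 : y ^ 2 + δ ^ 2 ≠ 0 := by positivity
  have h1 : HasDerivAt (fun y : ℝ => y ^ 2 + δ ^ 2) (2 * y) y := by
    have := (hasDerivAt_pow 2 y).add_const (δ ^ 2)
    simpa using this
  have h2 := h1.sqrt h0
  have h3 : HasDerivAt (fun y : ℝ => Real.exp (-(√(y ^ 2 + δ ^ 2) / 2)))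
      (Real.exp (-(√(y ^ 2 + δ ^ 2) / 2)) * -(2 * y / (2 * √(y ^ 2 + δ ^ 2)) / 2)) y :=
    ((h2.div_const 2).neg).exp
  have h4 : HasDerivAt (fun y : ℝ => 1 - (δ * y) ^ 2) (-(2 * (δ * (δ * y)))) y := by
    have h5 : HasDerivAt (fun y : ℝ => δ * y) δ y := by
      simpa using (hasDerivAt_id y).const_mul δ
    have h6 := (h5.pow 2).const_sub 1
    refine h6.congr_deriv ?_
    norm_num
    ring
  have h7 := (pp_der (1 - (δ * y) ^ 2)).comp y h4
  have h8 := h3.mul h7
  refine h8.congr_deriv ?_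
  rw [db]
  simp only [Function.comp]
  field_simp

theorem db_cont {δ : ℝ} (hδ : 0 < δ) : Continuous (db δ) := by
  have h0 : ∀ y : ℝ, 2 * √(y ^ 2 + δ ^ 2) ≠ 0 := fun y => by positivity
  have := pp_cont
  unfold db
  refine Continuous.mul (by fun_prop) (Continuous.add (Continuous.mul ?_ (by fun_prop)) (by fun_prop))
  exact (Continuous.div (by fun_prop) (by fun_prop) h0).neg

theorem bb_cs {δ : ℝ} (hδ : 0 < δ) : HasCompactSupport (bb δ) := by
  refine HasCompactSupport.intro (isCompact_Icc (a := -(1 / δ)) (b := 1 / δ)) fun y hy => ?_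
  have h1 : 1 / δ < |y| := by
    by_contra h
    exact hy (abs_le.1 (not_lt.1 h))
  have h2 : 1 < |δ * y| := by
    rw [abs_mul, abs_of_pos hδ]
    rwa [div_lt_iff₀' hδ] at h1
  have h3 : 1 - (δ * y) ^ 2 ≤ 0 := by
    rw [← sq_abs]
    nlinarith
  rw [bb, pp, max_eq_left h3]
  ring

theorem bb_CC {δ : ℝ} (hδ : 0 < δ) : CC (bb δ) (db δ) :=
  ⟨bb_der hδ, db_cont hδ, bb_cs hδ⟩

theorem exp_le (δ y : ℝ) : Real.exp (-(√(y ^ 2 + δ ^ 2) / 2)) ≤ Real.exp (-(|y| / 2)) := by
  rw [Real.exp_le_exp]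
  have : |y| ≤ √(y ^ 2 + δ ^ 2) := by
    rw [← Real.sqrt_sq_eq_abs]
    exact Real.sqrt_le_sqrt (by nlinarith [sq_nonneg δ])
  linarith

theorem pp_le (u : ℝ) : pp (1 - u ^ 2) ≤ 1 := by
  unfold pp
  have h1 : max 0 (1 - u ^ 2) ≤ 1 := max_le zero_le_one (by nlinarith [sq_nonneg u])
  have h2 : 0 ≤ max 0 (1 - u ^ 2) := le_max_left _ _
  nlinarith

theorem bb_nonneg (δ y : ℝ) : 0 ≤ bb δ y := mul_nonneg (Real.exp_pos _).le (pp_nonneg _)

theorem bb_abs (δ y : ℝ) : |bb δ y| ≤ Real.exp (-(|y| / 2)) := by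
  rw [abs_of_nonneg (bb_nonneg δ y), bb]
  calc _ ≤ Real.exp (-(|y| / 2)) * 1 :=
        mul_le_mul (exp_le δ y) (pp_le _) (pp_nonneg _) (Real.exp_pos _).le
    _ = _ := mul_one _

theorem db_abs {δ : ℝ} (hδ : 0 ≤ δ) (hδ1 : δ ≤ 1) (y : ℝ) : |db δ y| ≤ 5 * Real.exp (-(|y| / 2)) := by
  rw [db, abs_mul, abs_of_pos (Real.exp_pos _)]
  have h1 : |(-(y / (2 * √(y ^ 2 + δ ^ 2))) * pp (1 - (δ * y) ^ 2) +
    2 * max 0 (1 - (δ * y) ^ 2) * (-(2 * (δ * (δ * y)))))| ≤ 5 := by
    have a1 : |y / (2 * √(y ^ 2 + δ ^ 2))| ≤ 1 := by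
      rw [abs_div, abs_of_nonneg (by positivity : (0 : ℝ) ≤ 2 * √(y ^ 2 + δ ^ 2))]
      have : |y| ≤ √(y ^ 2 + δ ^ 2) := by
        rw [← Real.sqrt_sq_eq_abs]
        exact Real.sqrt_le_sqrt (by nlinarith [sq_nonneg δ])
      refine div_le_one_of_le₀ (by linarith [abs_nonneg y]) (by positivity)
    have a2 : |-(y / (2 * √(y ^ 2 + δ ^ 2))) * pp (1 - (δ * y) ^ 2)| ≤ 1 := by
      rw [abs_mul, abs_neg, abs_of_nonneg (pp_nonneg _)]
      calc _ ≤ (1 : ℝ) * 1 := mul_le_mul a1 (pp_le _) (pp_nonneg _) zero_le_one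
        _ = 1 := one_mul 1
    have a3 : |2 * max 0 (1 - (δ * y) ^ 2) * (-(2 * (δ * (δ * y))))| ≤ 4 := by
      have b00 : (0 : ℝ) ≤ 2 * max 0 (1 - (δ * y) ^ 2) :=
        mul_nonneg zero_le_two (le_max_left _ _)
      rw [abs_mul, abs_neg, abs_of_nonneg b00, abs_mul, abs_mul δ, abs_of_nonneg hδ, abs_two]
      have b0 : 0 ≤ |δ * y| := abs_nonneg _
      have b1 : 0 ≤ max 0 (1 - (δ * y) ^ 2) := le_max_left _ _
      have b2 : max 0 (1 - (δ * y) ^ 2) * |δ * y| ≤ 1 := by
        rcases le_total (1 - (δ * y) ^ 2) 0 with h | h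
        · rw [max_eq_left h]
          simp
        · rw [max_eq_right h]
          have h' : |δ * y| ^ 2 ≤ 1 := by
            rw [sq_abs]
            linarith
          have h'' : |δ * y| ≤ 1 := by
            rw [← abs_one]
            exact sq_le_sq.1 (by rw [sq_abs] at h'; rw [one_pow]; exact h')
          nlinarith [sq_nonneg (δ * y)]
      calc 2 * max 0 (1 - (δ * y) ^ 2) * (2 * (δ * |δ * y|))
          = 4 * δ * (max 0 (1 - (δ * y) ^ 2) * |δ * y|) := by ring
        _ ≤ 4 * 1 * 1 := by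
          refine mul_le_mul (by linarith) b2 (mul_nonneg b1 b0) (by norm_num)
        _ = 4 := by norm_num
    calc _ ≤ _ := abs_add_le _ _
      _ ≤ 1 + 4 := add_le_add a2 a3
      _ = 5 := by norm_num
  calc _ ≤ Real.exp (-(|y| / 2)) * 5 :=
        mul_le_mul (exp_le δ y) h1 (abs_nonneg _) (Real.exp_pos _).le
    _ = _ := mul_comm _ _

theorem exp_int : Integrable (fun y : ℝ => Real.exp (-(|y| / 2))) := by
  have h1 : IntegrableOn (fun y : ℝ => Real.exp (-(|y| / 2))) (Ioi 0) := by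
    have := exp_neg_integrableOn_Ioi 0 (b := 1 / 2) (by norm_num)
    refine this.congr_fun (fun y hy => ?_) measurableSet_Ioi
    have hy' : 0 < y := hy
    simp only [abs_of_pos hy']
    congr 1
    ring
  have h2 : IntegrableOn (fun y : ℝ => Real.exp (-(|y| / 2))) (Iic 0) := by
    have h3 := h1.comp_neg
    rw [integrableOn_Iic_iff_integrableOn_Iio]
    simpa using h3
  have h4 := h2.union h1
  rwa [Iic_union_Ioi, integrableOn_univ] at h4

theorem bb_lim (y : ℝ) : Tendsto (fun δ => bb δ y) (𝓝[>] 0) (𝓝 (bb 0 y)) := by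
  have := pp_cont
  have h : Continuous (fun δ => bb δ y) := by
    unfold bb
    fun_prop
  exact (h.tendsto 0).mono_left nhdsWithin_le_nhds

theorem db_lim {y : ℝ} (hy : y ≠ 0) : Tendsto (fun δ => db δ y) (𝓝[>] 0) (𝓝 (db 0 y)) := by
  have := pp_cont
  have h : Continuous (fun δ => db δ y) := by
    unfold db
    have h0 : ∀ δ : ℝ, 2 * √(y ^ 2 + δ ^ 2) ≠ 0 := fun δ => by positivity
    refine Continuous.mul (by fun_prop) (Continuous.add (Continuous.mul ?_ (by fun_prop))
      (by fun_prop))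
    exact (Continuous.div (by fun_prop) (by fun_prop) h0).neg
  exact (h.tendsto 0).mono_left nhdsWithin_le_nhds

theorem lim1 (s : ℝ) : Tendsto (fun δ => ∫ y, bb δ y * bb δ (y + s)) (𝓝[>] 0)
    (𝓝 (∫ y, bb 0 y * bb 0 (y + s))) := by
  refine tendsto_integral_filter_of_dominated_convergence (fun y => Real.exp (-(|y| / 2)))
    ?_ ?_ exp_int ?_
  · refine Eventually.of_forall fun δ => ?_
    exact ((bb_cont δ).mul ((bb_cont δ).comp (continuous_id.add continuous_const))).aestronglyMeasurable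
  · refine Eventually.of_forall fun δ => Eventually.of_forall fun y => ?_
    rw [Real.norm_eq_abs, abs_mul]
    calc _ ≤ Real.exp (-(|y| / 2)) * 1 := by
          refine mul_le_mul (bb_abs δ y) ((bb_abs δ _).trans ?_) (abs_nonneg _) (Real.exp_pos _).le
          rw [Real.exp_le_one_iff]
          have := abs_nonneg (y + s)
          linarith
      _ = _ := mul_one _
  · exact Eventually.of_forall fun y => (bb_lim y).mul (bb_lim _)

theorem lim2 (s : ℝ) : Tendsto (fun δ => ∫ y, db δ y * db δ (y + s)) (𝓝[>] 0)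
    (𝓝 (∫ y, db 0 y * db 0 (y + s))) := by
  refine tendsto_integral_filter_of_dominated_convergence (fun y => 25 * Real.exp (-(|y| / 2)))
    ?_ ?_ (exp_int.const_mul 25) ?_
  · filter_upwards [self_mem_nhdsWithin] with δ hδ
    exact ((db_cont hδ).mul ((db_cont hδ).comp
      (continuous_id.add continuous_const))).aestronglyMeasurable
  · filter_upwards [Ioo_mem_nhdsGT (zero_lt_one' ℝ)] with δ hδ
    refine Eventually.of_forall fun y => ?_
    rw [Real.norm_eq_abs, abs_mul]
    calc _ ≤ (5 * Real.exp (-(|y| / 2))) * 5 := by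
          refine mul_le_mul (db_abs hδ.1.le hδ.2.le y)
            ((db_abs hδ.1.le hδ.2.le _).trans ?_) (abs_nonneg _) (by positivity)
          have : Real.exp (-(|y + s| / 2)) ≤ 1 := by
            rw [Real.exp_le_one_iff]
            have := abs_nonneg (y + s)
            linarith
          linarith
      _ = _ := by ring
  · have h1 : ∀ᵐ y : ℝ, y ≠ 0 := by
      simp [ae_iff, measure_singleton]
    have h2 : ∀ᵐ y : ℝ, y ≠ -s := by
      simp [ae_iff, measure_singleton]
    filter_upwards [h1, h2] with y hy hy'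
    exact (db_lim hy).mul (db_lim (fun h => hy' (by linarith)))

/-- integral of a function which is piecewise an exponential -/
theorem tri (s : ℝ) (hs : 0 ≤ s) (f : ℝ → ℝ) (a b c : ℝ)
    (h1 : ∀ y, y < -s → f y = a * Real.exp (y + s)) (h2 : ∀ y, -s < y → y < 0 → f y = b)
    (h3 : ∀ y, 0 < y → f y = c * Real.exp (-y)) : ∫ y, f y = a + b * s + c := by
  have e1 : EqOn f (fun y => (a * Real.exp s) * Real.exp y) (Iio (-s)) := fun y hy => by
    rw [h1 y hy, Real.exp_add]
    ring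
  have e2 : EqOn f (fun _ => b) (Ioo (-s) 0) := fun y hy => h2 y hy.1 hy.2
  have e3 : EqOn f (fun y => c * Real.exp (-y)) (Ioi 0) := fun y hy => h3 y hy
  have i1 : IntegrableOn f (Iic (-s)) := by
    rw [integrableOn_Iic_iff_integrableOn_Iio]
    refine IntegrableOn.congr_fun ?_ e1.symm measurableSet_Iio
    exact ((integrableOn_exp_Iic (-s)).mono_set Iio_subset_Iic_self).const_mul _
  have i2 : IntegrableOn f (Ioc (-s) 0) := by
    rw [integrableOn_Ioc_iff_integrableOn_Ioo]
    refine IntegrableOn.congr_fun ?_ e2.symm measurableSet_Ioo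
    exact integrableOn_const (by simp)
  have i3 : IntegrableOn f (Ioi 0) := by
    refine IntegrableOn.congr_fun ?_ e3.symm measurableSet_Ioi
    exact (integrableOn_exp_neg_Ioi 0).const_mul _
  have i4 : IntegrableOn f (Iic 0) := by
    have := i1.union i2
    rwa [Iic_union_Ioc_eq_Iic (by linarith)] at this
  have j1 : ∫ y in Iic (-s), f y = a := by
    rw [integral_Iic_eq_integral_Iio, setIntegral_congr_fun measurableSet_Iio e1,
      ← integral_Iic_eq_integral_Iio, integral_const_mul, integral_exp_Iic, mul_assoc,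
      ← Real.exp_add]
    simp
  have j2 : ∫ y in Ioc (-s) 0, f y = b * s := by
    rw [integral_Ioc_eq_integral_Ioo, setIntegral_congr_fun measurableSet_Ioo e2]
    simp [hs, mul_comm]
  have j3 : ∫ y in Ioi 0, f y = c := by
    rw [setIntegral_congr_fun measurableSet_Ioi e3, integral_const_mul, integral_exp_neg_Ioi_zero,
      mul_one]
  have k1 : ∫ y in Iic 0, f y = a + b * s := by
    rw [← j1, ← j2, ← setIntegral_union _ measurableSet_Ioc i1 i2,
      Iic_union_Ioc_eq_Iic (by linarith)]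
    exact Set.disjoint_left.2 fun y hy hy' => absurd hy'.1 (not_lt.2 hy)
  rw [← setIntegral_univ, ← Iic_union_Ioi (a := (0 : ℝ)), setIntegral_union _ measurableSet_Ioi i4 i3,
    k1, j3]
  exact Set.disjoint_left.2 fun y (hy : y ≤ 0) (hy' : 0 < y) => absurd hy' (not_lt.2 hy)

theorem bb_zero (y : ℝ) : bb 0 y = Real.exp (-(|y| / 2)) := by
  rw [bb, show y ^ 2 + (0 : ℝ) ^ 2 = y ^ 2 by ring, Real.sqrt_sq_eq_abs]
  simp [pp]

theorem db_zero (y : ℝ) : db 0 y = -(y / (2 * |y|)) * Real.exp (-(|y| / 2)) := by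
  rw [db, show y ^ 2 + (0 : ℝ) ^ 2 = y ^ 2 by ring, Real.sqrt_sq_eq_abs]
  simp [pp]
  ring

theorem db_zero_pos {y : ℝ} (hy : 0 < y) : db 0 y = -(1 / 2) * Real.exp (-(y / 2)) := by
  rw [db_zero, abs_of_pos hy]
  congr 1
  field_simp

theorem db_zero_neg {y : ℝ} (hy : y < 0) : db 0 y = (1 / 2) * Real.exp (y / 2) := by
  rw [db_zero, abs_of_neg hy]
  have : y ≠ 0 := hy.ne
  congr 1
  · field_simp
  · congr 1
    ring

theorem int1 (s : ℝ) (hs : 0 ≤ s) :
    ∫ y, bb 0 y * bb 0 (y + s) = (2 + s) * Real.exp (-(s / 2)) := by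
  rw [tri s hs _ (Real.exp (-(s / 2))) (Real.exp (-(s / 2))) (Real.exp (-(s / 2)))]
  · ring
  · intro y hy
    rw [bb_zero, bb_zero, abs_of_neg (by linarith), abs_of_neg (by linarith), ← Real.exp_add,
      ← Real.exp_add]
    congr 1
    ring
  · intro y hy hy'
    rw [bb_zero, bb_zero, abs_of_neg (by linarith), abs_of_pos (by linarith), ← Real.exp_add]
    congr 1
    ring
  · intro y hy
    rw [bb_zero, bb_zero, abs_of_pos (by linarith), abs_of_pos (by linarith), ← Real.exp_add,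
      ← Real.exp_add]
    congr 1
    ring

theorem int2 (s : ℝ) (hs : 0 ≤ s) :
    ∫ y, db 0 y * db 0 (y + s) = (2 - s) / 4 * Real.exp (-(s / 2)) := by
  rw [tri s hs _ (1 / 4 * Real.exp (-(s / 2))) (-(1 / 4) * Real.exp (-(s / 2)))
    (1 / 4 * Real.exp (-(s / 2)))]
  · ring
  · intro y hy
    rw [db_zero_neg (by linarith), db_zero_neg (by linarith)]
    have : Real.exp (y / 2) * Real.exp ((y + s) / 2) = Real.exp (-(s / 2)) * Real.exp (y + s) := by
      rw [← Real.exp_add, ← Real.exp_add]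
      congr 1
      ring
    linear_combination (1 / 4) * this
  · intro y hy hy'
    rw [db_zero_neg (by linarith), db_zero_pos (by linarith)]
    have : Real.exp (y / 2) * Real.exp (-((y + s) / 2)) = Real.exp (-(s / 2)) := by
      rw [← Real.exp_add]
      congr 1
      ring
    linear_combination (-(1 / 4)) * this
  · intro y hy
    rw [db_zero_pos (by linarith), db_zero_pos (by linarith)]
    have : Real.exp (-(y / 2)) * Real.exp (-((y + s) / 2)) =
        Real.exp (-(s / 2)) * Real.exp (-y) := by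
      rw [← Real.exp_add, ← Real.exp_add]
      congr 1
      ring
    linear_combination (1 / 4) * this

end

end Pool.Agent.U324.DE
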