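import Pool.Agent.U469.DE.S

/-! Project DE: forms of sums of two products, and the cut-off exponential. -/

set_option autoImplicit false

open MeasureTheory Filter Topology

namespace Pool.Agent.U324.DE

open Pool.Agent.U469.DE

noncomputable section

/-- `f` is `C¹` with compact support and has the derivative `f'` -/
structure CC (f f' : ℝ → ℝ) : Prop where
  der : ∀ x, HasDerivAt f (f' x) x
  cont' : Continuous f'
  cs : HasCompactSupport f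

namespace CC

variable {f f' g g' : ℝ → ℝ}

theorem deriv_eq (h : CC f f') : deriv f = f' := funext fun x => (h.der x).deriv

theorem cont (h : CC f f') : Continuous f :=
  continuous_iff_continuousAt.2 fun x => (h.der x).continuousAt

theorem cs' (h : CC f f') : HasCompactSupport f' := by
  have := h.cs.deriv
  rwa [h.deriv_eq] at this

theorem contDiff (h : CC f f') : ContDiff ℝ 1 f := by
  rw [contDiff_one_iff_deriv]
  refine ⟨fun x => (h.der x).differentiableAt, ?_⟩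
  rw [h.deriv_eq]
  exact h.cont'

end CC

theorem int_mul {f g : ℝ → ℝ} (hf : Continuous f) (hg : Continuous g) (hcf : HasCompactSupport f) :
    Integrable (fun x => f x * g x) :=
  (hf.mul hg).integrable_of_hasCompactSupport hcf.mul_right

theorem int_sq (P1 P2 c1 c2 : ℝ → ℝ) (hP1 : Continuous P1) (hP2 : Continuous P2)
    (hc1 : Continuous c1) (hc2 : Continuous c2) (hsP1 : HasCompactSupport P1)
    (hsP2 : HasCompactSupport P2) (hsc1 : HasCompactSupport c1) (hsc2 : HasCompactSupport c2) :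
    ∫ p : ℝ × ℝ, (P1 p.1 * c1 p.2 + P2 p.1 * c2 p.2) ^ 2 =
      (∫ x, P1 x * P1 x) * (∫ y, c1 y * c1 y) + 2 * ((∫ x, P1 x * P2 x) * ∫ y, c1 y * c2 y) +
        (∫ x, P2 x * P2 x) * ∫ y, c2 y * c2 y := by
  have e : ∀ p : ℝ × ℝ, (P1 p.1 * c1 p.2 + P2 p.1 * c2 p.2) ^ 2 =
      ((P1 p.1 * P1 p.1) * (c1 p.2 * c1 p.2) + 2 * ((P1 p.1 * P2 p.1) * (c1 p.2 * c2 p.2))) +
        (P2 p.1 * P2 p.1) * (c2 p.2 * c2 p.2) := fun p => by ring
  simp_rw [e]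
  have i1 : Integrable (fun p : ℝ × ℝ => (P1 p.1 * P1 p.1) * (c1 p.2 * c1 p.2)) :=
    (int_mul hP1 hP1 hsP1).mul_prod (int_mul hc1 hc1 hsc1)
  have i2 : Integrable (fun p : ℝ × ℝ => (P1 p.1 * P2 p.1) * (c1 p.2 * c2 p.2)) :=
    (int_mul hP1 hP2 hsP1).mul_prod (int_mul hc1 hc2 hsc1)
  have i3 : Integrable (fun p : ℝ × ℝ => (P2 p.1 * P2 p.1) * (c2 p.2 * c2 p.2)) :=
    (int_mul hP2 hP2 hsP2).mul_prod (int_mul hc2 hc2 hsc2)
  have i12 : Integrable (fun p : ℝ × ℝ => (P1 p.1 * P1 p.1) * (c1 p.2 * c1 p.2) +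
      2 * ((P1 p.1 * P2 p.1) * (c1 p.2 * c2 p.2))) := i1.add (i2.const_mul 2)
  rw [integral_add i12 i3, integral_add i1 (i2.const_mul 2),
    integral_const_mul, Measure.volume_eq_prod]
  rw [integral_prod_mul (fun x => P1 x * P1 x) (fun y => c1 y * c1 y),
    integral_prod_mul (fun x => P1 x * P2 x) (fun y => c1 y * c2 y),
    integral_prod_mul (fun x => P2 x * P2 x) (fun y => c2 y * c2 y)]

/-- the sum of two products -/
def ten (A1 b1 A2 b2 : ℝ → ℝ) (p : ℝ × ℝ) : ℂ := ((A1 p.1 * b1 p.2 + A2 p.1 * b2 p.2 : ℝ) : ℂ)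

section

variable {A1 A1' A2 A2' b1 b1' b2 b2' : ℝ → ℝ} (hA1 : CC A1 A1') (hA2 : CC A2 A2')
  (hb1 : CC b1 b1') (hb2 : CC b2 b2')

include hA1 hA2 hb1 hb2

theorem ten_hasFDerivAt (p : ℝ × ℝ) : HasFDerivAt (fun p : ℝ × ℝ => A1 p.1 * b1 p.2 + A2 p.1 * b2 p.2)
    ((A1 p.1 • (b1' p.2 • ContinuousLinearMap.snd ℝ ℝ ℝ) +
      b1 p.2 • (A1' p.1 • ContinuousLinearMap.fst ℝ ℝ ℝ)) +
      (A2 p.1 • (b2' p.2 • ContinuousLinearMap.snd ℝ ℝ ℝ) +
      b2 p.2 • (A2' p.1 • ContinuousLinearMap.fst ℝ ℝ ℝ))) p := by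
  have h1 := (hA1.der p.1).comp_hasFDerivAt p (hasFDerivAt_fst (𝕜 := ℝ) (E := ℝ) (F := ℝ))
  have h2 := (hb1.der p.2).comp_hasFDerivAt p (hasFDerivAt_snd (𝕜 := ℝ) (E := ℝ) (F := ℝ))
  have h3 := (hA2.der p.1).comp_hasFDerivAt p (hasFDerivAt_fst (𝕜 := ℝ) (E := ℝ) (F := ℝ))
  have h4 := (hb2.der p.2).comp_hasFDerivAt p (hasFDerivAt_snd (𝕜 := ℝ) (E := ℝ) (F := ℝ))
  exact (h1.mul h2).add (h3.mul h4)

theorem ten_fderiv (p v : ℝ × ℝ) : fderiv ℝ (ten A1 b1 A2 b2) p v =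
    ((A1 p.1 * (b1' p.2 * v.2) + b1 p.2 * (A1' p.1 * v.1) +
      (A2 p.1 * (b2' p.2 * v.2) + b2 p.2 * (A2' p.1 * v.1)) : ℝ) : ℂ) := by
  have h := Complex.ofRealCLM.hasFDerivAt.comp p (ten_hasFDerivAt hA1 hA2 hb1 hb2 p)
  have h2 : HasFDerivAt (ten A1 b1 A2 b2) _ p := h
  rw [h2.fderiv]
  simp

theorem ten_dX (p : ℝ × ℝ) : dX (ten A1 b1 A2 b2) p =
    ((A1' p.1 * b1 p.2 + A2' p.1 * b2 p.2 : ℝ) : ℂ) := by
  rw [dX, ten_fderiv hA1 hA2 hb1 hb2]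
  congr 1
  ring

theorem ten_dY (p : ℝ × ℝ) : dY (ten A1 b1 A2 b2) p =
    ((A1 p.1 * b1' p.2 + A2 p.1 * b2' p.2 : ℝ) : ℂ) := by
  rw [dY, ten_fderiv hA1 hA2 hb1 hb2]
  congr 1
  ring

theorem ten_core : ten A1 b1 A2 b2 ∈ Core := by
  constructor
  · have h : ContDiff ℝ 1 (fun p : ℝ × ℝ => A1 p.1 * b1 p.2 + A2 p.1 * b2 p.2) :=
      ((hA1.contDiff.comp contDiff_fst).mul (hb1.contDiff.comp contDiff_snd)).add
        ((hA2.contDiff.comp contDiff_fst).mul (hb2.contDiff.comp contDiff_snd))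
    exact Complex.ofRealCLM.contDiff.comp h
  · have hc : IsCompact ((tsupport A1 ∪ tsupport A2) ×ˢ (tsupport b1 ∪ tsupport b2)) :=
      (hA1.cs.isCompact.union hA2.cs.isCompact).prod (hb1.cs.isCompact.union hb2.cs.isCompact)
    refine HasCompactSupport.intro hc fun p hp => ?_
    have h1 : A1 p.1 * b1 p.2 = 0 := by
      by_contra h
      exact hp ⟨Or.inl (subset_tsupport _ (left_ne_zero_of_mul h)),
        Or.inl (subset_tsupport _ (right_ne_zero_of_mul h))⟩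
    have h2 : A2 p.1 * b2 p.2 = 0 := by
      by_contra h
      exact hp ⟨Or.inr (subset_tsupport _ (left_ne_zero_of_mul h)),
        Or.inr (subset_tsupport _ (right_ne_zero_of_mul h))⟩
    rw [ten, h1, h2]
    simp

theorem ten_nrm : nrm (ten A1 b1 A2 b2) =
    (∫ x, A1 x * A1 x) * (∫ y, b1 y * b1 y) + 2 * ((∫ x, A1 x * A2 x) * ∫ y, b1 y * b2 y) +
      (∫ x, A2 x * A2 x) * ∫ y, b2 y * b2 y := by
  rw [← int_sq A1 A2 b1 b2 hA1.cont hA2.cont hb1.cont hb2.cont hA1.cs hA2.cs hb1.cs hb2.cs, nrm]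
  congr 1
  funext p
  rw [ten, Complex.norm_real, Real.norm_eq_abs, sq_abs]

theorem ten_gX : gX (ten A1 b1 A2 b2) =
    (∫ x, A1' x * A1' x) * (∫ y, b1 y * b1 y) + 2 * ((∫ x, A1' x * A2' x) * ∫ y, b1 y * b2 y) +
      (∫ x, A2' x * A2' x) * ∫ y, b2 y * b2 y := by
  rw [← int_sq A1' A2' b1 b2 hA1.cont' hA2.cont' hb1.cont hb2.cont hA1.cs' hA2.cs' hb1.cs hb2.cs, gX]
  congr 1
  funext p
  rw [ten_dX hA1 hA2 hb1 hb2, Complex.norm_real, Real.norm_eq_abs, sq_abs]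

theorem ten_gY : gY (ten A1 b1 A2 b2) =
    (∫ x, A1 x * A1 x) * (∫ y, b1' y * b1' y) + 2 * ((∫ x, A1 x * A2 x) * ∫ y, b1' y * b2' y) +
      (∫ x, A2 x * A2 x) * ∫ y, b2' y * b2' y := by
  rw [← int_sq A1 A2 b1' b2' hA1.cont hA2.cont hb1.cont' hb2.cont' hA1.cs hA2.cs hb1.cs' hb2.cs', gY]
  congr 1
  funext p
  rw [ten_dY hA1 hA2 hb1 hb2, Complex.norm_real, Real.norm_eq_abs, sq_abs]

end

end

end Pool.Agent.U324.DE
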