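import Pool.Agent.U324.DE.Approx

set_option autoImplicit false

open MeasureTheory Filter Topology Set

namespace Pool.Agent.U324.DE

open Pool.Agent.U469.DE

noncomputable section

/-- the profile in `y` -/
def ff (y : ℝ) : ℝ := pp (y * (10 - y))

def ff' (y : ℝ) : ℝ := 2 * max 0 (y * (10 - y)) * (10 - 2 * y)

theorem ff_zero {y : ℝ} (hy : y ∉ Ioo (0 : ℝ) 10) : ff y = 0 := by
  have h : y * (10 - y) ≤ 0 := by
    rcases lt_or_ge 0 y with h1 | h1
    · have : 10 ≤ y := not_lt.1 fun h2 => hy ⟨h1, h2⟩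
      nlinarith
    · nlinarith
  rw [ff, pp, max_eq_left h]
  ring

theorem ff'_zero {y : ℝ} (hy : y ∉ Ioo (0 : ℝ) 10) : ff' y = 0 := by
  have h : y * (10 - y) ≤ 0 := by
    rcases lt_or_ge 0 y with h1 | h1
    · have : 10 ≤ y := not_lt.1 fun h2 => hy ⟨h1, h2⟩
      nlinarith
    · nlinarith
  rw [ff', max_eq_left h]
  ring

theorem ff_CC : CC ff ff' := by
  refine ⟨fun y => ?_, ?_, ?_⟩
  · have h1 : HasDerivAt (fun y : ℝ => y * (10 - y)) (10 - 2 * y) y := by
      have := (hasDerivAt_id y).mul ((hasDerivAt_id y).const_sub 10)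
      refine this.congr_deriv ?_
      simp
      ring
    exact (pp_der (y * (10 - y))).comp y h1
  · unfold ff'
    fun_prop
  · refine HasCompactSupport.intro (isCompact_Icc (a := (0 : ℝ)) (b := 10)) fun y hy => ?_
    exact ff_zero fun h => hy (Ioo_subset_Icc_self h)

theorem ff_int : ∫ y, ff y * ff y = 10 ^ 9 / 630 := by
  rw [← intervalIntegral.integral_eq_integral_of_support_subset (a := 0) (b := 10)]
  · have h1 : ∫ y in (0 : ℝ)..10, ff y * ff y =
        ∫ y in (0 : ℝ)..10, (10000 * y ^ 4 - 4000 * y ^ 5 + 600 * y ^ 6 - 40 * y ^ 7 + y ^ 8) := by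
      refine intervalIntegral.integral_congr fun y hy => ?_
      rw [uIcc_of_le (by norm_num)] at hy
      have h2 : 0 ≤ y * (10 - y) := mul_nonneg hy.1 (by linarith [hy.2])
      simp only [ff, pp, max_eq_right h2]
      ring
    rw [h1, intervalIntegral.integral_eq_sub_of_hasDerivAt (f := fun y : ℝ => 2000 * y ^ 5 -
      2000 / 3 * y ^ 6 + 600 / 7 * y ^ 7 - 5 * y ^ 8 + 1 / 9 * y ^ 9)]
    · norm_num
    · intro y _
      have h := (((((hasDerivAt_pow 5 y).const_mul 2000).sub ((hasDerivAt_pow 6 y).const_mul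
        (2000 / 3))).add ((hasDerivAt_pow 7 y).const_mul (600 / 7))).sub
        ((hasDerivAt_pow 8 y).const_mul 5)).add ((hasDerivAt_pow 9 y).const_mul (1 / 9))
      refine h.congr_deriv ?_
      norm_num
      ring
    · exact (by fun_prop : Continuous fun y : ℝ => 10000 * y ^ 4 - 4000 * y ^ 5 + 600 * y ^ 6 -
        40 * y ^ 7 + y ^ 8).intervalIntegrable _ _
  · intro y hy
    by_contra h
    exact hy (by
      show ff y * ff y = 0
      rw [ff_zero fun h' => h (Ioo_subset_Ioc_self h'), mul_zero])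

theorem ff'_int : ∫ y, ff' y * ff' y = 12 / 100 * (10 ^ 9 / 630) := by
  rw [← intervalIntegral.integral_eq_integral_of_support_subset (a := 0) (b := 10)]
  · have h1 : ∫ y in (0 : ℝ)..10, ff' y * ff' y =
        ∫ y in (0 : ℝ)..10, (40000 * y ^ 2 - 24000 * y ^ 3 + 5200 * y ^ 4 - 480 * y ^ 5 +
          16 * y ^ 6) := by
      refine intervalIntegral.integral_congr fun y hy => ?_
      rw [uIcc_of_le (by norm_num)] at hy
      have h2 : 0 ≤ y * (10 - y) := mul_nonneg hy.1 (by linarith [hy.2])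
      simp only [ff', max_eq_right h2]
      ring
    rw [h1, intervalIntegral.integral_eq_sub_of_hasDerivAt (f := fun y : ℝ => 40000 / 3 * y ^ 3 -
      6000 * y ^ 4 + 1040 * y ^ 5 - 80 * y ^ 6 + 16 / 7 * y ^ 7)]
    · norm_num
    · intro y _
      have h := (((((hasDerivAt_pow 3 y).const_mul (40000 / 3)).sub ((hasDerivAt_pow 4 y).const_mul
        6000)).add ((hasDerivAt_pow 5 y).const_mul 1040)).sub
        ((hasDerivAt_pow 6 y).const_mul 80)).add ((hasDerivAt_pow 7 y).const_mul (16 / 7))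
      refine h.congr_deriv ?_
      norm_num
      ring
    · exact (by fun_prop : Continuous fun y : ℝ => 40000 * y ^ 2 - 24000 * y ^ 3 + 5200 * y ^ 4 -
        480 * y ^ 5 + 16 * y ^ 6).intervalIntegrable _ _
  · intro y hy
    by_contra h
    exact hy (by
      show ff' y * ff' y = 0
      rw [ff'_zero fun h' => h (Ioo_subset_Ioc_self h'), mul_zero])

theorem zero_CC : CC (fun _ => 0) (fun _ => 0) :=
  ⟨fun x => hasDerivAt_const x 0, continuous_const, HasCompactSupport.zero⟩

/-- the profile in `x` -/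
def Bx (δ x : ℝ) : ℝ := bb δ (2 * x)

def Bx' (δ x : ℝ) : ℝ := 2 * db δ (2 * x)

theorem Bx_CC {δ : ℝ} (hδ : 0 < δ) : CC (Bx δ) (Bx' δ) := by
  refine ⟨fun x => ?_, ?_, ?_⟩
  · have h1 : HasDerivAt (fun x : ℝ => 2 * x) 2 x := by
      simpa using (hasDerivAt_id x).const_mul 2
    have h2 := (bb_der hδ (2 * x)).comp x h1
    refine h2.congr_deriv ?_
    rw [Bx', mul_comm]
  · have := db_cont hδ
    unfold Bx'
    fun_prop
  · exact (bb_cs hδ).comp_homeomorph (Homeomorph.mulLeft₀ 2 two_ne_zero)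

theorem Bx_int (δ : ℝ) : ∫ x, Bx δ x * Bx δ x = 1 / 2 * ∫ y, bb δ y * bb δ (y + 0) := by
  have := Measure.integral_comp_mul_left (fun y => bb δ y * bb δ (y + 0)) 2
  simp only [Bx]
  simp only [add_zero] at this ⊢
  rw [this]
  norm_num

theorem Bx'_int (δ : ℝ) : ∫ x, Bx' δ x * Bx' δ x = 2 * ∫ y, db δ y * db δ (y + 0) := by
  have := Measure.integral_comp_mul_left (fun y => db δ y * db δ (y + 0)) 2
  simp only [Bx']
  simp only [add_zero] at this ⊢
  have e : ∀ x, 2 * db δ (2 * x) * (2 * db δ (2 * x)) = 4 * (db δ (2 * x) * db δ (2 * x)) :=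
    fun x => by ring
  simp_rw [e]
  rw [integral_const_mul, this]
  norm_num
  ring

/-- the number which has to be negative -/
def KK (δ : ℝ) : ℝ := 2 * (∫ y, db δ y * db δ (y + 0)) + 31 / 100 * (∫ y, bb δ y * bb δ (y + 0)) -
  2 * bb δ (2 * del) ^ 2

theorem exists_KK : ∃ δ : ℝ, 0 < δ ∧ KK δ < 0 := by
  have h1 : Tendsto KK (𝓝[>] 0) (𝓝 (KK 0)) :=
    (((lim2 0).const_mul 2).add ((lim1 0).const_mul (31 / 100))).sub
      (((bb_lim (2 * del)).pow 2).const_mul 2)
  have h2 : KK 0 < 0 := by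
    rw [KK, int1 0 le_rfl, int2 0 le_rfl, bb_zero]
    have h3 : (9 / 10 : ℝ) ≤ Real.exp (-(|2 * del| / 2)) ^ 2 := by
      rw [← Real.exp_nat_mul]
      have h4 : |2 * del| = 1 / 10 := by
        rw [del, abs_of_pos] <;> norm_num
      rw [h4]
      have := Real.add_one_le_exp ((2 : ℕ) * -((1 / 10 : ℝ) / 2))
      refine le_trans ?_ this
      norm_num
    have h5 : Real.exp (-((0 : ℝ) / 2)) = 1 := by simp
    rw [h5]
    linarith
  have h3 := (h1.eventually (gt_mem_nhds h2)).and (self_mem_nhdsWithin)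
  obtain ⟨δ, hδ, hδ'⟩ := h3.exists
  exact ⟨δ, hδ', hδ⟩

theorem test_even {δ : ℝ} (hδ : 0 < δ) (hK : KK δ < 0) {f f' : ℝ → ℝ} (hf : CC f f')
    (hf0 : ∀ y, y ∉ Ioo (0 : ℝ) 20 → f y = 0) (h1 : ∫ y, f y * f y = 10 ^ 9 / 630)
    (h2 : ∫ y, f' y * f' y = 12 / 100 * (10 ^ 9 / 630)) :
    Q top (ten (Bx δ) f (fun _ => 0) (fun _ => 0)) <
      -(nrm (ten (Bx δ) f (fun _ => 0) (fun _ => 0)) / 4) := by
  have hB := Bx_CC hδ
  have hz := zero_CC
  have hhor : 0 ≤ hor top (ten (Bx δ) f (fun _ => 0) (fun _ => 0)) :=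
    integral_nonneg fun x => sq_nonneg _
  have hval : ∀ x y, ‖ten (Bx δ) f (fun _ => 0) (fun _ => 0) (x, y)‖ ^ 2 =
      bb δ (2 * x) ^ 2 * (f y * f y) := by
    intro x y
    rw [ten, Complex.norm_real, Real.norm_eq_abs, sq_abs]
    simp only [Bx]
    ring
  have hwal : wal top (ten (Bx δ) f (fun _ => 0) (fun _ => 0)) =
      2 * bb δ (2 * del) ^ 2 * ∫ y, f y * f y := by
    have e1 : ∫ y in Ioo (-ste) top, 2 * bb δ (2 * del) ^ 2 * (f y * f y) =
        ∫ y, 2 * bb δ (2 * del) ^ 2 * (f y * f y) := by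
      refine setIntegral_eq_integral_of_forall_compl_eq_zero fun y hy => ?_
      rw [hf0 y fun h => hy ⟨?_, ?_⟩]
      · ring
      · have := h.1
        rw [ste]
        linarith
      · have := h.2
        rw [top]
        linarith
    rw [wal, ← integral_const_mul, ← e1]
    refine setIntegral_congr_fun measurableSet_Ioo fun y _ => ?_
    simp only [hval]
    by_cases hy : y < 0
    · rw [hf0 y fun h => absurd h.1 (not_lt.2 hy.le)]
      ring
    · have : pos y = del := if_neg hy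
      rw [this, show 2 * -del = -(2 * del) by ring, bb_neg]
      ring
  rw [Q, hwal, ten_gX hB hz hf hz, ten_gY hB hz hf hz, ten_nrm hB hz hf hz, h1, h2, Bx_int, Bx'_int]
  simp only [mul_zero, integral_zero, add_zero]
  rw [KK] at hK
  simp only [add_zero] at hK
  nlinarith

/-- the job TEVEN -/
theorem jobTestEven : JobTestEven := by
  obtain ⟨δ, hδ, hK⟩ := exists_KK
  have hg : CC (fun y => ff (y - 10)) (fun y => ff' (y - 10)) := by
    refine ⟨fun y => ?_, ?_, ?_⟩
    · have h1 : HasDerivAt (fun y : ℝ => y - 10) 1 y := (hasDerivAt_id y).sub_const 10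
      have h2 := (ff_CC.der (y - 10)).comp y h1
      rw [mul_one] at h2
      exact h2
    · have := ff_CC.cont'
      fun_prop
    · exact ff_CC.cs.comp_homeomorph (Homeomorph.subRight 10)
  refine ⟨ten (Bx δ) ff (fun _ => 0) (fun _ => 0), ten_core (Bx_CC hδ) zero_CC ff_CC zero_CC,
    ten (Bx δ) (fun y => ff (y - 10)) (fun _ => 0) (fun _ => 0),
    ten_core (Bx_CC hδ) zero_CC hg zero_CC, ?_, ?_, ?_, ?_, ?_, ?_⟩
  · intro x y
    simp only [ten, Bx]
    rw [show 2 * -x = -(2 * x) by ring, bb_neg]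
  · intro x y
    simp only [ten, Bx]
    rw [show 2 * -x = -(2 * x) by ring, bb_neg]
  · intro x y hy
    simp only [ten]
    rw [ff_zero fun h => hy (Ioo_subset_Icc_self h)]
    simp
  · intro x y hy
    simp only [ten]
    rw [ff_zero fun h => hy ⟨by linarith [h.1], by linarith [h.2]⟩]
    simp
  · exact test_even hδ hK ff_CC (fun y hy => ff_zero fun h => hy ⟨h.1, by linarith [h.2]⟩)
      ff_int ff'_int
  · refine test_even hδ hK hg (fun y hy => ff_zero fun h => hy
      ⟨by linarith [h.1], by linarith [h.2]⟩) ?_ ?_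
    · rw [← ff_int]
      exact integral_sub_right_eq_self (fun y => ff y * ff y) 10
    · rw [← ff'_int]
      exact integral_sub_right_eq_self (fun y => ff' y * ff' y) 10

end

end Pool.Agent.U324.DE
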